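import Pool.Agent.H21.BS.Targets

/-!
# A Bessel inequality over many levels: pointwise bound of the dual function
-/

set_option autoImplicit false

open Finset Pool.Agent.H6.N4D

namespace Pool.Agent.H68.BSQ

open Pool.Agent.H21.BS

lemma term_bound (W : ℝ) (P : ℕ) (κ : ℝ) (V : Cell) (hV : V.Ok W P κ) (n q : ℕ)
    (hq : q ∈ V.Q) :
    ‖1 / (q : ℂ) * V.c q * V.u q n‖ ≤ 3 * ((if q ∣ n then (1 : ℝ) else 0) + 1 / (q : ℝ)) := by
  have hq1 : (1 : ℝ) ≤ q := by exact_mod_cast (hV.pr q hq).one_le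
  have hc := hV.cb q hq
  have hg := (hV.bv q hq).1 n
  have hD : ‖DD q n‖ ≤ (if q ∣ n then (q : ℝ) else 0) + 1 := by
    unfold DD
    refine (norm_sub_le _ _).trans ?_
    rw [norm_one]
    split_ifs
    · rw [Complex.norm_natCast]
    · rw [norm_zero]
  have hD0 : 0 ≤ (if q ∣ n then (q : ℝ) else 0) + 1 := (norm_nonneg _).trans hD
  have hu : ‖V.u q n‖ ≤ (if q ∣ n then (q : ℝ) else 0) + 1 := by
    unfold Cell.u
    rw [norm_mul, norm_mul, norm_ee, mul_one]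
    calc ‖DD q n‖ * ‖V.g q n‖ ≤ ((if q ∣ n then (q : ℝ) else 0) + 1) * 1 :=
          mul_le_mul hD hg (norm_nonneg _) hD0
      _ = _ := mul_one _
  rw [norm_mul, norm_mul, norm_div, norm_one, Complex.norm_natCast]
  have h1 : 1 / (q : ℝ) * ‖V.c q‖ * ‖V.u q n‖ ≤
      1 / (q : ℝ) * 3 * ((if q ∣ n then (q : ℝ) else 0) + 1) := by
    gcongr
  refine h1.trans (le_of_eq ?_)
  have hq0 : (q : ℝ) ≠ 0 := by linarith
  split_ifs
  · field_simp
  · ring

theorem pf_OMB : T_OMB := by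
  intro W P κ V hV n
  have h1 : ‖V.om n‖ ≤ ∑ q ∈ V.Q, 3 * ((if q ∣ n then (1 : ℝ) else 0) + 1 / (q : ℝ)) := by
    unfold Cell.om
    exact norm_sum_le_of_le _ fun q hq => term_bound W P κ V hV n q hq
  refine h1.trans ?_
  rw [← Finset.mul_sum, Finset.sum_add_distrib, ← Finset.sum_filter, Finset.sum_const,
    nsmul_eq_mul, mul_one]
  have := hV.wt
  linarith

end Pool.Agent.H68.BSQ
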